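import Pool.Agent.Helper937.James13

open Ordinal

namespace Pool.Agent.Results.MP_f24657_an.SmoothBump

/-- The ordinal interval `[0, ω₁]` (with its order topology, a compact Hausdorff space). -/
abbrev Interval : Type 1 := Set.Iic (ω₁ : Ordinal.{0})

/-- The numbers `(∑ |f (α (i+1)) - f (α i)|^2)^(1/2)`, over all finite strictly increasing
sequences `α 0 < α 1 < ... < α (n+1)` of points of `[0, ω₁]` (with at least one difference). -/
def variations (f : Interval → ℝ) : Set ℝ :=
  {r | ∃ (n : ℕ) (α : Fin (n + 2) → Interval), StrictMono α ∧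
    r = Real.sqrt (∑ i : Fin (n + 1), |f (α i.succ) - f (α i.castSucc)| ^ 2)}

/-- The norm of the long James space. -/
noncomputable def jamesNorm (f : Interval → ℝ) : ℝ := sSup (variations f)

/-- `f` belongs to the long James space `J(ω₁)`: it is continuous, vanishes at `ω₁` and its norm is
finite. -/
def InJ (f : Interval → ℝ) : Prop :=
  Continuous f ∧ f ⟨ω₁, Set.mem_Iic.2 le_rfl⟩ = 0 ∧ BddAbove (variations f)

/-- `b` is a continuous bump function on `J(ω₁)`: it is continuous for the norm, not identically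
zero, and has bounded support (its values outside `J(ω₁)` are irrelevant). -/
def IsContinuousBump (b : (Interval → ℝ) → ℝ) : Prop :=
  (∀ f, InJ f → ∀ ε > 0, ∃ δ > 0, ∀ g, InJ g → jamesNorm (fun x => g x - f x) < δ → |b g - b f| < ε) ∧
  (∃ f, InJ f ∧ b f ≠ 0) ∧
  ∃ R : ℝ, ∀ f, InJ f → b f ≠ 0 → jamesNorm f ≤ R

/-- The function `F` on `J(ω₁)` is Gateaux differentiable at the point `f` of `J(ω₁)`: there is a
bounded linear functional `L` on `J(ω₁)` such that, for each direction `h` in `J(ω₁)`, the
derivative of `t ↦ F (f + t h)` at `t = 0` exists and equals `L h`. -/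
def GateauxDifferentiableAt (F : (Interval → ℝ) → ℝ) (f : Interval → ℝ) : Prop :=
  ∃ L : (Interval → ℝ) → ℝ,
    (∀ g h, InJ g → InJ h → ∀ a b : ℝ, L (fun x => a * g x + b * h x) = a * L g + b * L h) ∧
    (∃ K : ℝ, ∀ h, InJ h → |L h| ≤ K * jamesNorm h) ∧
    ∀ h, InJ h → HasDerivAt (fun t : ℝ => F (fun x => f x + t * h x)) (L h) 0

noncomputable instance : SuccOrder Interval := SuccOrder.ofLinearWellFoundedLT Interval

lemma inJ_iff (f : Interval → ℝ) : InJ f ↔ LJ.IsJ f := by
  constructor
  · rintro ⟨h1, h2, h3⟩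
    exact ⟨h1, h2, LJ.bdd_iff.1 h3⟩
  · intro h
    exact ⟨h.cont, h.top, LJ.bdd_iff.2 h.bv⟩

/-- The long James space `J(ω₁)` has a continuous bump function which is Gateaux differentiable at
every point. -/
theorem result : ∃ b : (Interval → ℝ) → ℝ, IsContinuousBump b ∧
    ∀ f, InJ f → GateauxDifferentiableAt b f := by
  unfold IsContinuousBump GateauxDifferentiableAt
  simp only [inJ_iff]
  obtain ⟨b, h1, h2, h3, h4⟩ := LJ.final_bump (X := Interval)
  exact ⟨b, ⟨h1, h2, h3⟩, h4⟩

end Pool.Agent.Results.MP_f24657_an.SmoothBump
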