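import Pool.Agent.Helper937.James13

open Ordinal

namespace Pool.Agent.Results.MP_f24657_an.SmoothNorm

/-- The ordinal interval `[0, ω₁]` (with its order topology, a compact Hausdorff space). -/
abbrev Interval : Type 1 := Set.Iic (ω₁ : Ordinal.{0})

/-- The numbers `(∑ |f (α (i+1)) - f (α i)|^2)^(1/2)`, over all finite strictly increasing
sequences `α 0 < α 1 < ... < α (n+1)` of points of `[0, ω₁]` (with at least one difference). -/
def variations (f : Interval → ℝ) : Set ℝ :=
  {r | ∃ (n : ℕ) (α : Fin (n + 2) → Interval), StrictMono α ∧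
    r = Real.sqrt (∑ i : Fin (n + 1), |f (α i.succ) - f (α i.castSucc)| ^ 2)}

/-- The norm of the long James space. -/
noncomputable def jamesNorm (f : Interval → ℝ) : ℝ := sSup (variations f)

/-- `f` belongs to the long James space `J(ω₁)`: it is continuous, vanishes at `ω₁` and its norm is
finite. -/
def InJ (f : Interval → ℝ) : Prop :=
  Continuous f ∧ f ⟨ω₁, Set.mem_Iic.2 le_rfl⟩ = 0 ∧ BddAbove (variations f)

/-- `N` is an equivalent norm on `J(ω₁)` (its values outside `J(ω₁)` are irrelevant). -/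
def IsEquivalentNorm (N : (Interval → ℝ) → ℝ) : Prop :=
  (∀ f g, InJ f → InJ g → N (fun x => f x + g x) ≤ N f + N g) ∧
  (∀ (c : ℝ) f, InJ f → N (fun x => c * f x) = |c| * N f) ∧
  ∃ c C : ℝ, 0 < c ∧ 0 < C ∧ ∀ f, InJ f → c * jamesNorm f ≤ N f ∧ N f ≤ C * jamesNorm f

/-- The function `F` on `J(ω₁)` is Gateaux differentiable at the point `f` of `J(ω₁)`: there is a
bounded linear functional `L` on `J(ω₁)` such that, for each direction `h` in `J(ω₁)`, the
derivative of `t ↦ F (f + t h)` at `t = 0` exists and equals `L h`. -/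
def GateauxDifferentiableAt (F : (Interval → ℝ) → ℝ) (f : Interval → ℝ) : Prop :=
  ∃ L : (Interval → ℝ) → ℝ,
    (∀ g h, InJ g → InJ h → ∀ a b : ℝ, L (fun x => a * g x + b * h x) = a * L g + b * L h) ∧
    (∃ K : ℝ, ∀ h, InJ h → |L h| ≤ K * jamesNorm h) ∧
    ∀ h, InJ h → HasDerivAt (fun t : ℝ => F (fun x => f x + t * h x)) (L h) 0

noncomputable instance : SuccOrder Interval := SuccOrder.ofLinearWellFoundedLT Interval

lemma inJ_iff (f : Interval → ℝ) : InJ f ↔ LJ.IsJ f := by
  constructor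
  · rintro ⟨h1, h2, h3⟩
    exact ⟨h1, h2, LJ.bdd_iff.1 h3⟩
  · intro h
    exact ⟨h.cont, h.top, LJ.bdd_iff.2 h.bv⟩

/-- The long James space `J(ω₁)` has an equivalent norm which is Gateaux differentiable at
every nonzero point. -/
theorem result : ∃ N : (Interval → ℝ) → ℝ, IsEquivalentNorm N ∧
    ∀ f, InJ f → (∃ x, f x ≠ 0) → GateauxDifferentiableAt N f := by
  unfold IsEquivalentNorm GateauxDifferentiableAt
  simp only [inJ_iff]
  obtain ⟨N, h1, h2, h3, h4⟩ := LJ.final_norm (X := Interval)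
  exact ⟨N, ⟨h1, h2, h3⟩, h4⟩

end Pool.Agent.Results.MP_f24657_an.SmoothNorm
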